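import Pool.Agent.H34.WB.Stm2
import Pool.Agent.H34.WB.Law
import Pool.Agent.H34.WB.State
import Pool.Graph.R_pool_sql_team_seeded_63374d34.N282.WB.Df

/-! The diagonal of an invariant state is invariant under the shift and the change of the signs. -/

set_option autoImplicit false

open MeasureTheory Filter Topology Set
open scoped ComplexConjugate Matrix ComplexOrder
open Pool.Agent.Results.MP_07c750_an.WalshBakerQuantumLimits
open Pool.Agent.H34.WB

noncomputable section

namespace Pool.Agent.H97.WB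

variable {D : ℕ}

lemma meas_shf : Measurable (shf : (ℤ → Fin D) → ℤ → Fin D) :=
  measurable_pi_lambda _ fun _ => measurable_pi_apply _

lemma meas_ngv [NeZero D] : Measurable (ngv : (ℤ → Fin D) → ℤ → Fin D) :=
  measurable_pi_lambda _ fun i => (measurable_of_finite fun a : Fin D => - a).comp (measurable_pi_apply i)

lemma shf_cyl (m : ℤ) {n : ℕ} (w : Fin n → Fin D) : shf ⁻¹' (cylinder m w) = cylinder (m + 1) w := by
  ext x
  refine forall_congr' fun i => ?_
  show x (m + i + 1) = w i ↔ x (m + 1 + i) = w i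
  rw [show m + (i : ℤ) + 1 = m + 1 + i by ring]

lemma ngv_cyl [NeZero D] (m : ℤ) {n : ℕ} (w : Fin n → Fin D) :
    ngv ⁻¹' (cylinder m w) = cylinder m (fun i => - w i) := by
  ext x
  refine forall_congr' fun i => ?_
  show - x (m + i) = w i ↔ x (m + i) = - w i
  exact neg_eq_iff_eq_neg

lemma real_shf (μ : Measure (ℤ → Fin D)) (m : ℤ) {n : ℕ} (w : Fin n → Fin D) :
    (μ.map shf).real (cylinder m w) = μ.real (cylinder (m + 1) w) := by
  rw [map_measureReal_apply meas_shf (meas_cyl m w), shf_cyl]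

lemma real_ngv [NeZero D] (μ : Measure (ℤ → Fin D)) (m : ℤ) {n : ℕ} (w : Fin n → Fin D) :
    (μ.map ngv).real (cylinder m w) = μ.real (cylinder m (fun i => - w i)) := by
  rw [map_measureReal_apply meas_ngv (meas_cyl m w), ngv_cyl]

lemma dvd_neg_iff [NeZero D] (a c : Fin D) : D ∣ (a : ℕ) + (c : ℕ) ↔ a = - c := by
  rw [eq_neg_iff_add_eq_zero, Fin.ext_iff, Fin.val_add, Nat.dvd_iff_mod_eq_zero]
  simp

lemma QF_sq [NeZero D] (a c : Fin D) : (QF D * QF D) a c = if a = - c then 1 else 0 := by
  have h := Pool.Agent.N282.WB.DF_sq D (NeZero.pos D) a c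
  rw [pow_two] at h
  simp only [← dvd_neg_iff]
  exact h

lemma G_sq [NeZero D] (n : ℕ) (u v : Fin n → Fin D) :
    (fourierPow D n * fourierPow D n) u v = if u = (fun i => - v i) then 1 else 0 := by
  have h1 : fourierPow D n = ten fun _ => QF D := rfl
  rw [h1, ten_mul]
  show ∏ i, (QF D * QF D) (u i) (v i) = _
  simp_rw [QF_sq]
  rw [Finset.prod_boole]
  simp only [Finset.mem_univ, true_imp_iff, funext_iff]

lemma rho_neg [NeZero D] {ρ : (n : ℕ) → Matrix (Fin n → Fin D) (Fin n → Fin D) ℂ}
    (h : IsInvariantState D ρ) (n : ℕ) (u v : Fin n → Fin D) :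
    ρ n (fun i => - u i) (fun i => - v i) = ρ n u v := by
  obtain ⟨G, hG⟩ : ∃ G, G = fourierPow D n := ⟨_, rfl⟩
  have h0 := h.fourier n
  rw [← hG] at h0
  have h2 : (G * G)ᴴ * ρ n * (G * G) = ρ n := by
    calc (G * G)ᴴ * ρ n * (G * G) = Gᴴ * (Gᴴ * ρ n * G) * G := by
          rw [Matrix.conjTranspose_mul]
          simp only [Matrix.mul_assoc]
      _ = ρ n := by rw [h0, h0]
  have h3 : ∀ u v : Fin n → Fin D, (G * G) u v = if u = (fun i => - v i) then 1 else 0 := by
    rw [hG]
    exact G_sq n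
  have h4 : ((G * G)ᴴ * ρ n * (G * G)) u v = ρ n (fun i => - u i) (fun i => - v i) := by
    rw [Matrix.mul_apply, Finset.sum_eq_single fun i => - v i]
    · rw [h3, if_pos rfl, mul_one, Matrix.mul_apply, Finset.sum_eq_single fun i => - u i]
      · rw [Matrix.conjTranspose_apply, h3, if_pos rfl, star_one, one_mul]
      · intro b _ hb
        rw [Matrix.conjTranspose_apply, h3, if_neg hb, star_zero, zero_mul]
      · intro h
        exact absurd (Finset.mem_univ _) h
    · intro b _ hb
      rw [h3, if_neg hb, mul_zero]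
    · intro h
      exact absurd (Finset.mem_univ _) h
  rw [← h4, h2]

theorem s_inv : S_cle → S_inv := by
  intro hcle D _ hD μ _ ρ hρ hd
  have key : ∀ ν : Measure (ℤ → Fin D), IsFiniteMeasure ν →
      (∀ (m : ℤ) (n : ℕ) (w : Fin n → Fin D), ν.real (cylinder m w) = μ.real (cylinder m w)) → ν = μ := by
    intro ν hν h
    exact le_antisymm (hcle D ν μ hν inferInstance fun m n w => (h m n w).le)
      (hcle D μ ν inferInstance hν fun m n w => (h m n w).ge)
  refine ⟨key _ inferInstance fun m n w => ?_, key _ inferInstance fun m n w => ?_, rho_neg hρ⟩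
  · rw [real_shf, hd, hd]
  · rw [real_ngv, hd, hd, rho_neg hρ]

end Pool.Agent.H97.WB
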